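import Pool.Agent.Helper82_NIB.Stmts

/-!
# Squad NIB, module SMP1: concentration of the sampled Green function
-/

set_option autoImplicit false

open Finset Matrix

namespace Pool.Agent.NIB.H63

section prob

variable {I α : Type} [Fintype I] [DecidableEq I] [Fintype α]

/-- Expectation of a product of functions of two coordinates. -/
lemma Ex_coord2 {wt : I → α → ℝ} (h : IsWt wt) {i j : I} (hij : i ≠ j) (f g : α → ℝ) :
    Ex wt (fun ω => f (ω i) * g (ω j)) = (∑ s, wt i s * f s) * ∑ s, wt j s * g s := by
  have h1 : ∀ ω : I → α, pw wt ω * (f (ω i) * g (ω j))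
      = ∏ k, (wt k (ω k) * ((if k = i then f (ω k) else 1) * if k = j then g (ω k) else 1)) := by
    intro ω
    rw [Finset.prod_mul_distrib, Finset.prod_mul_distrib,
      Finset.prod_ite_eq' univ i (fun k => f (ω k)), Finset.prod_ite_eq' univ j (fun k => g (ω k))]
    simp [pw]
  unfold Ex
  simp only [h1]
  rw [← Fintype.piFinset_univ, Finset.sum_prod_piFinset univ
    (fun k s => wt k s * ((if k = i then f s else 1) * if k = j then g s else 1))]
  rw [Finset.prod_eq_mul i j hij]
  · congr 1
    · refine Finset.sum_congr rfl fun s _ => ?_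
      simp [hij]
    · refine Finset.sum_congr rfl fun s _ => ?_
      simp [hij.symm]
  · intro k _ hk
    simp [hk.1, hk.2, h.one]
  · intro hi
    exact absurd (Finset.mem_univ i) hi
  · intro hj
    exact absurd (Finset.mem_univ j) hj

/-- The variance of a sum of independent terms. -/
lemma Ex_var {wt : I → α → ℝ} (h : IsWt wt) (T : Finset I) (f : I → α → ℝ) :
    Ex wt (fun ω => (∑ i ∈ T, (f i (ω i) - ∑ s, wt i s * f i s)) ^ 2) ≤
      ∑ i ∈ T, ∑ s, wt i s * f i s ^ 2 := by
  let g : I → α → ℝ := fun i s => f i s - ∑ t, wt i t * f i t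
  have hg0 : ∀ i, ∑ s, wt i s * g i s = 0 := by
    intro i
    simp only [g, mul_sub, Finset.sum_sub_distrib]
    rw [← Finset.sum_mul, h.one, one_mul, sub_self]
  have h1 : (fun ω : I → α => (∑ i ∈ T, (f i (ω i) - ∑ s, wt i s * f i s)) ^ 2) =
      fun ω => ∑ i ∈ T, ∑ j ∈ T, g i (ω i) * g j (ω j) := by
    funext ω
    rw [sq, Finset.sum_mul_sum]
  rw [h1, Ex_sum]
  refine Finset.sum_le_sum fun i hi => ?_
  rw [Ex_sum, Finset.sum_eq_single i]
  · have h2 : Ex wt (fun ω => g i (ω i) * g i (ω i)) = ∑ s, wt i s * (g i s * g i s) :=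
      Ex_coord h i (fun s => g i s * g i s)
    rw [h2]
    set m := ∑ t, wt i t * f i t with hm
    have h3 : ∑ s, wt i s * (g i s * g i s) = (∑ s, wt i s * f i s ^ 2) - m ^ 2 := by
      have h4 : ∀ s, wt i s * (g i s * g i s) =
          wt i s * f i s ^ 2 - 2 * m * (wt i s * f i s) + m ^ 2 * wt i s := by
        intro s
        change wt i s * ((f i s - m) * (f i s - m)) = _
        ring
      simp only [h4, Finset.sum_add_distrib, Finset.sum_sub_distrib]
      rw [← Finset.mul_sum, ← Finset.mul_sum, h.one, ← hm]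
      ring
    rw [h3]
    nlinarith [sq_nonneg m]
  · intro j _ hj
    rw [Ex_coord2 h (Ne.symm hj) (g i) (g j), hg0, zero_mul]
  · intro hn
    exact absurd hi hn

/-- `(Ex F)² ≤ Ex F²`. -/
lemma Ex_sq_le {wt : I → α → ℝ} (h : IsWt wt) (F : (I → α) → ℝ) :
    Ex wt F ^ 2 ≤ Ex wt (fun ω => F ω ^ 2) := by
  set m := Ex wt F with hm
  have h1 : 0 ≤ Ex wt (fun ω => (F ω - m) ^ 2) := Ex_nonneg h fun ω => sq_nonneg _
  have h2 : (fun ω => (F ω - m) ^ 2) = fun ω => (F ω ^ 2 - 2 * m * F ω) + m ^ 2 := by
    funext ω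
    ring
  rw [h2, Ex_add, Ex_sub, Ex_mul, Ex_const h, ← hm] at h1
  nlinarith

end prob

section norm

variable {W : Type} [Fintype W]

lemma sqrt_nsq (f : W → ℝ) : √(nsq f) = ‖(WithLp.toLp 2 f : EuclideanSpace ℝ W)‖ := by
  rw [EuclideanSpace.norm_eq]
  congr 1
  unfold nsq
  exact Finset.sum_congr rfl fun a _ => by simp

lemma abs_sqrt_nsq_sub (f g : W → ℝ) : |√(nsq f) - √(nsq g)| ≤ √(nsq (f - g)) := by
  rw [sqrt_nsq, sqrt_nsq, sqrt_nsq]
  exact abs_norm_sub_norm_le _ _

lemma nsq_nonneg (f : W → ℝ) : 0 ≤ nsq f := Finset.sum_nonneg fun _ _ => sq_nonneg _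

end norm

theorem smp1 (hBern : BernStmt) (hW : SmpwStmt) : Smp1Stmt := by
  intro W _ _ A de lam' np ta hA hde hde0 hta hlam hnp w
  have hwt := hW W A np ta hA
  have hnp0 : (0 : ℝ) < np := by linarith
  have hta0 : (1 : ℝ) ≤ ta := by exact_mod_cast hta
  -- the extension of rows of `A`
  let E : W → Option W → ℝ := fun a s => s.elim 0 (fun z => A a z)
  have hEde : ∀ s, ∑ a, E a s ^ 2 ≤ de := by
    intro s
    rcases s with _ | z
    · simp [E, hde0]
    · calc ∑ a, E a (some z) ^ 2 ≤ ∑ a, de * A z a := by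
            refine Finset.sum_le_sum fun a _ => ?_
            change A a z ^ 2 ≤ de * A z a
            rw [sq, hA.symm z a]
            exact mul_le_mul_of_nonneg_right (hde a z) (hA.nonneg a z)
        _ = de * ∑ a, A z a := by rw [Finset.mul_sum]
        _ ≤ de * 1 := mul_le_mul_of_nonneg_left (hA.row z) hde0
        _ = de := mul_one de
  -- means
  let m : Fin np × Fin ta → W → ℝ := fun p a => ∑ s, swt A np ta (w, p) s * E a s
  have hm : ∀ p a, m p a = ∑ z, A a z * (laz A ^ (p.2 : ℕ)) z w := by
    intro p a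
    change ∑ s, swt A np ta (w, p) s * E a s = _
    rw [Fintype.sum_option]
    change _ * 0 + ∑ z, (laz A ^ (p.2 : ℕ)) w z * A a z = _
    rw [mul_zero, zero_add]
    refine Finset.sum_congr rfl fun z _ => ?_
    rw [laz_pow_symm hA.symm, mul_comm]
  -- the vector
  have hv : ∀ ω : W × Fin np × Fin ta → Option W, ∀ a,
      (A *ᵥ (ghs ω w - grn A ta *ᵥ dl w)) a =
        1 / (2 * np) * ∑ p : Fin np × Fin ta, (E a (ω (w, p)) - m p a) := by
    intro ω a
    have h1 : (A *ᵥ ghs ω w) a = 1 / (2 * np) * ∑ p : Fin np × Fin ta, E a (ω (w, p)) := by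
      have h2 : ∀ z, A a z * ghs ω w z = 1 / (2 * np) *
          ∑ p : Fin np × Fin ta, (if ω (w, p) = some z then A a z else 0) := by
        intro z
        unfold ghs cnt
        rw [← Finset.sum_filter, Finset.sum_const, nsmul_eq_mul]
        ring
      change ∑ z, A a z * ghs ω w z = _
      simp only [h2]
      rw [← Finset.mul_sum, Finset.sum_comm]
      congr 1
      refine Finset.sum_congr rfl fun p _ => ?_
      rcases ω (w, p) with _ | z'
      · simp [E]
      · simp [E, Option.some_inj]
    have h3 : (A *ᵥ (grn A ta *ᵥ dl w)) a = 1 / (2 * np) * ∑ p : Fin np × Fin ta, m p a := by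
      have h4 : ∀ z, (grn A ta *ᵥ dl w) z = 1 / 2 * ∑ j : Fin ta, (laz A ^ (j : ℕ)) z w := by
        intro z
        unfold dl
        rw [Matrix.mulVec_single_one, ← Finset.sum_range (fun j => (laz A ^ j) z w)]
        change grn A ta z w = _
        unfold grn
        rw [Matrix.smul_apply, Matrix.sum_apply, smul_eq_mul]
      change ∑ z, A a z * (grn A ta *ᵥ dl w) z = _
      simp only [h4, hm]
      rw [Fintype.sum_prod_type]
      simp only [Finset.sum_const, Finset.card_univ, Fintype.card_fin, nsmul_eq_mul]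
      have h5 : ∑ z, A a z * (1 / 2 * ∑ j : Fin ta, (laz A ^ (j : ℕ)) z w) =
          1 / 2 * ∑ j : Fin ta, ∑ z, A a z * (laz A ^ (j : ℕ)) z w := by
        rw [Finset.sum_comm, Finset.mul_sum]
        refine Finset.sum_congr rfl fun z _ => ?_
        rw [← Finset.mul_sum]
        ring
      rw [h5, ← mul_assoc]
      congr 1
      field_simp
    rw [Matrix.mulVec_sub, Pi.sub_apply, h1, h3, ← mul_sub, Finset.sum_sub_distrib]
  let F : (W × Fin np × Fin ta → Option W) → ℝ := fun ω =>
    √(nsq (A *ᵥ (ghs ω w - grn A ta *ᵥ dl w)))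
  -- the expectation
  have hEx : Ex (swt A np ta) F ≤ √(ta * de / (4 * np)) := by
    have h1 : Ex (swt A np ta) (fun ω => F ω ^ 2) ≤ ta * de / (4 * np) := by
      have h2 : (fun ω => F ω ^ 2) = fun ω => ∑ a, (1 / (2 * (np : ℝ))) ^ 2 *
          (∑ p : Fin np × Fin ta, (E a (ω (w, p)) - m p a)) ^ 2 := by
        funext ω
        change √(nsq (A *ᵥ (ghs ω w - grn A ta *ᵥ dl w))) ^ 2 = _
        rw [Real.sq_sqrt (nsq_nonneg _)]
        unfold nsq
        refine Finset.sum_congr rfl fun a _ => ?_
        rw [hv, mul_pow]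
      rw [h2, Ex_sum]
      have h3 : ∀ a, Ex (swt A np ta) (fun ω => (1 / (2 * (np : ℝ))) ^ 2 *
          (∑ p : Fin np × Fin ta, (E a (ω (w, p)) - m p a)) ^ 2) ≤
          (1 / (2 * (np : ℝ))) ^ 2 * ∑ p : Fin np × Fin ta, ∑ s, swt A np ta (w, p) s *
            E a s ^ 2 := by
        intro a
        rw [Ex_mul]
        refine mul_le_mul_of_nonneg_left ?_ (sq_nonneg _)
        have h4 := Ex_var hwt ((univ : Finset (Fin np × Fin ta)).map
          ⟨fun p => (w, p), fun p p' h => (Prod.mk.inj h).2⟩) (fun _ s => E a s)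
        simp only [Finset.sum_map, Function.Embedding.coeFn_mk] at h4
        exact h4
      refine (Finset.sum_le_sum fun a _ => h3 a).trans ?_
      rw [← Finset.mul_sum, Finset.sum_comm]
      have h5 : ∑ p : Fin np × Fin ta, ∑ a, ∑ s, swt A np ta (w, p) s * E a s ^ 2 ≤
          ∑ p : Fin np × Fin ta, de := by
        refine Finset.sum_le_sum fun p _ => ?_
        rw [Finset.sum_comm]
        calc ∑ s, ∑ a, swt A np ta (w, p) s * E a s ^ 2
            = ∑ s, swt A np ta (w, p) s * ∑ a, E a s ^ 2 := by
              refine Finset.sum_congr rfl fun s _ => ?_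
              rw [Finset.mul_sum]
          _ ≤ ∑ s, swt A np ta (w, p) s * de := Finset.sum_le_sum fun s _ =>
              mul_le_mul_of_nonneg_left (hEde s) (hwt.nonneg _ s)
          _ = de := by rw [← Finset.sum_mul, hwt.one, one_mul]
      refine (mul_le_mul_of_nonneg_left h5 (sq_nonneg _)).trans (le_of_eq ?_)
      rw [Finset.sum_const, Finset.card_univ, Fintype.card_prod, Fintype.card_fin,
        Fintype.card_fin, nsmul_eq_mul]
      push_cast
      field_simp
      ring
    refine Real.le_sqrt_of_sq_le ?_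
    exact (Ex_sq_le hwt F).trans h1
  -- Lipschitz
  have hLip : ∀ (i : W × Fin np × Fin ta) (s : Option W) (ω : W × Fin np × Fin ta → Option W),
      |F (Function.update ω i s) - F (Function.update ω i none)| ≤
        if i.1 = w then √de / (2 * np) else 0 := by
    intro i s ω
    refine (abs_sqrt_nsq_sub _ _).trans ?_
    have h1 : ∀ a, (A *ᵥ (ghs (Function.update ω i s) w - grn A ta *ᵥ dl w) -
        A *ᵥ (ghs (Function.update ω i none) w - grn A ta *ᵥ dl w)) a =
        if i.1 = w then 1 / (2 * (np : ℝ)) * E a s else 0 := by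
      intro a
      rw [Pi.sub_apply, hv, hv, ← mul_sub, ← Finset.sum_sub_distrib]
      obtain ⟨w', p'⟩ := i
      by_cases hw : w' = w
      · subst hw
        rw [if_pos rfl]
        congr 1
        rw [Finset.sum_eq_single p']
        · rw [Function.update_self, Function.update_self]
          simp [E]
        · intro p _ hp
          rw [Function.update_of_ne, Function.update_of_ne]
          · ring
          · intro h
            exact hp (Prod.mk.inj h).2
          · intro h
            exact hp (Prod.mk.inj h).2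
        · intro h
          exact absurd (Finset.mem_univ _) h
      · rw [if_neg hw]
        rw [Finset.sum_eq_zero, mul_zero]
        intro p _
        rw [Function.update_of_ne, Function.update_of_ne]
        · ring
        · intro h
          exact hw (Prod.mk.inj h).1.symm
        · intro h
          exact hw (Prod.mk.inj h).1.symm
    by_cases hw : i.1 = w
    · rw [if_pos hw]
      simp only [hw, if_true] at h1
      have h2 : nsq (A *ᵥ (ghs (Function.update ω i s) w - grn A ta *ᵥ dl w) -
          A *ᵥ (ghs (Function.update ω i none) w - grn A ta *ᵥ dl w)) ≤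
          (√de / (2 * np)) ^ 2 := by
        unfold nsq
        simp only [h1, mul_pow (1 / (2 * (np : ℝ)))]
        have e1 : (√de / (2 * (np : ℝ))) ^ 2 = (1 / (2 * (np : ℝ))) ^ 2 * de := by
          rw [div_pow, Real.sq_sqrt hde0]
          ring
        rw [← Finset.mul_sum, e1]
        exact mul_le_mul_of_nonneg_left (hEde s) (sq_nonneg _)
      exact Real.sqrt_le_iff.2 ⟨by positivity, h2⟩
    · rw [if_neg hw]
      simp only [hw, if_false] at h1
      have h2 : nsq (A *ᵥ (ghs (Function.update ω i s) w - grn A ta *ᵥ dl w) -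
          A *ᵥ (ghs (Function.update ω i none) w - grn A ta *ᵥ dl w)) = 0 := by
        unfold nsq
        simp only [h1]
        simp
      rw [h2, Real.sqrt_zero]
  -- Bernstein
  have hB := hBern (W × Fin np × Fin ta) (Option W) (swt A np ta)
    (fun i => (Fintype.equivFin (W × Fin np × Fin ta) i : ℕ)) (fun _ => none) F
    (fun i _ => if i.1 = w then √de / (2 * np) else 0) (fun _ _ _ _ => 0)
    (fun i _ => if i.1 = w then √de / (2 * np) else 0) (ta * de / (4 * np)) (√de / (2 * np)) lam'
    hwt (fun i j h => (Fintype.equivFin _).injective (Fin.ext h))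
    (fun i s => by positivity) (fun _ _ _ _ => le_rfl)
    (fun i s ω => by
      simp only [Finset.sum_const_zero, add_zero]
      exact hLip i s ω)
    (fun i s => by simp)
    (by
      have h1 : ∀ i : W × Fin np × Fin ta, ∑ s, swt A np ta i s *
          (if i.1 = w then √de / (2 * np) else 0) ^ 2 = if i.1 = w then de / (4 * np ^ 2) else 0 := by
        intro i
        rw [← Finset.sum_mul, hwt.one, one_mul]
        by_cases hw : i.1 = w
        · rw [if_pos hw, if_pos hw, div_pow, Real.sq_sqrt hde0]
          ring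
        · rw [if_neg hw, if_neg hw]
          ring
      simp only [h1]
      rw [Fintype.sum_prod_type, Finset.sum_eq_single w]
      · simp only [if_true, Finset.sum_const, Finset.card_univ, Fintype.card_prod,
          Fintype.card_fin, nsmul_eq_mul]
        push_cast
        refine le_of_eq ?_
        field_simp
      · intro w' _ hw'
        simp [hw']
      · intro h
        exact absurd (Finset.mem_univ _) h)
    (fun i s => by
      split_ifs
      · exact le_rfl
      · positivity)
    (by positivity) (by linarith)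
  refine (Pr_mono hwt ?_).trans hB
  intro ω hω
  change 4 * ta * lam' / np * de < nsq (A *ᵥ (ghs ω w - grn A ta *ᵥ dl w)) at hω
  change 2 * √(lam' * (ta * de / (4 * np))) + 4 * lam' * (√de / (2 * np)) <
    |F ω - Ex (swt A np ta) F|
  refine lt_of_lt_of_le ?_ (le_abs_self _)
  set X : ℝ := √(ta * lam' / np * de) with hX
  have hX0 : 0 ≤ X := Real.sqrt_nonneg _
  have hF : 2 * X < F ω := by
    change 2 * X < √(nsq (A *ᵥ (ghs ω w - grn A ta *ᵥ dl w)))
    refine Real.lt_sqrt_of_sq_lt ?_
    rw [mul_pow, hX, Real.sq_sqrt (by positivity)]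
    calc (2 : ℝ) ^ 2 * (ta * lam' / np * de) = 4 * ta * lam' / np * de := by ring
      _ < _ := hω
  have h1 : Ex (swt A np ta) F ≤ 1 / 2 * X := by
    refine hEx.trans ?_
    refine Real.sqrt_le_iff.2 ⟨by positivity, ?_⟩
    rw [mul_pow, hX, Real.sq_sqrt (by positivity)]
    have e1 : (1 / 2 : ℝ) ^ 2 * (ta * lam' / np * de) = (ta * de / (4 * np)) * lam' := by
      field_simp
      ring
    rw [e1]
    exact le_mul_of_one_le_right (by positivity) hlam
  have h2 : 2 * √(lam' * (ta * de / (4 * np))) = X := by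
    rw [hX]
    have e1 : lam' * (ta * de / (4 * np)) = (1 / 2) ^ 2 * (ta * lam' / np * de) := by
      field_simp
      ring
    rw [e1, Real.sqrt_mul (by positivity), Real.sqrt_sq (by norm_num)]
    ring
  have h3 : 4 * lam' * (√de / (2 * np)) ≤ 1 / 4 * X := by
    have h4 : (4 * lam' * (√de / (2 * np))) ^ 2 ≤ (1 / 4 * X) ^ 2 := by
      rw [mul_pow (1 / 4 : ℝ) X, hX, Real.sq_sqrt (by positivity), mul_pow, div_pow,
        Real.sq_sqrt hde0]
      have e1 : (4 * lam') ^ 2 * (de / (2 * np) ^ 2) = 4 * (lam' / np) * (lam' / np * de) := by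
        field_simp
        ring
      have e2 : (1 / 4 : ℝ) ^ 2 * (ta * lam' / np * de) = ta / 16 * (lam' / np * de) := by ring
      rw [e1, e2]
      refine mul_le_mul_of_nonneg_right ?_ (by positivity)
      have h5 : lam' / np ≤ 1 / 64 := by
        rw [div_le_div_iff₀ hnp0 (by norm_num)]
        linarith
      linarith
    exact le_of_sq_le_sq h4 (by positivity)
  rw [h2]
  have hXpos : 0 ≤ X := hX0
  linarith

end Pool.Agent.NIB.H63
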